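import Pool.Agent.Q152.CC.Stm

set_option autoImplicit false

/-!
# Project CC (helper152), job CNT: counting in the family of primitive cubic characters
-/

namespace Pool.Agent.Q210.CC

open Finset Pool.Agent.Y692.QS Pool.Agent.Q152.CC

/-- The family is finite. -/
theorem family_finite (P : ℕ) : (family P).Finite := by
  have h1 : ∀ m ∈ Finset.Icc 1 P,
      (Set.range fun χ : DirichletCharacter ℂ m => (⟨m, χ⟩ : Σ m, DirichletCharacter ℂ m)).Finite := by
    intro m hm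
    have : NeZero m := ⟨by have := (Finset.mem_Icc.mp hm).1; omega⟩
    exact Set.finite_range _
  refine (Set.Finite.biUnion (Finset.Icc 1 P).finite_toSet h1).subset ?_
  rintro ⟨m, χ⟩ ⟨h2, h3, -, -⟩
  rw [Set.mem_iUnion₂]
  exact ⟨m, by rw [Finset.mem_coe, Finset.mem_Icc]; exact ⟨h2, h3⟩, ⟨χ, rfl⟩⟩

/-- A Dirichlet character is determined by its values at the positive integers. -/
theorem char_ext {m : ℕ} (hm : 1 ≤ m) {χ χ' : DirichletCharacter ℂ m}
    (h : ∀ n : ℕ, 1 ≤ n → χ (n : ZMod m) = χ' (n : ZMod m)) : χ = χ' := by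
  have : NeZero m := ⟨by omega⟩
  refine MulChar.ext' fun a => ?_
  have h1 : ((a.val + m : ℕ) : ZMod m) = a := by
    rw [Nat.cast_add, ZMod.natCast_self, add_zero, ZMod.natCast_zmod_val]
  have h2 := h (a.val + m) (by omega)
  rwa [h1] at h2

/-- The characters modulo `1` and `9`. -/
def psis : Set (Σ d : ℕ, DirichletCharacter ℂ d) :=
  (Set.range fun ψ : DirichletCharacter ℂ 1 => ⟨1, ψ⟩) ∪
    Set.range fun ψ : DirichletCharacter ℂ 9 => ⟨9, ψ⟩

theorem psis_finite : psis.Finite := (Set.finite_range _).union (Set.finite_range _)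

theorem psis_ncard : psis.ncard ≤ 7 := by
  have h1 : (Set.range fun ψ : DirichletCharacter ℂ 1 =>
      (⟨1, ψ⟩ : Σ d : ℕ, DirichletCharacter ℂ d)).ncard ≤ 1 := by
    rw [← Set.image_univ]
    refine (Set.ncard_image_le Set.finite_univ).trans ?_
    rw [Set.ncard_univ, DirichletCharacter.card_eq_totient_of_hasEnoughRootsOfUnity ℂ 1]
    decide
  have h9 : (Set.range fun ψ : DirichletCharacter ℂ 9 =>
      (⟨9, ψ⟩ : Σ d : ℕ, DirichletCharacter ℂ d)).ncard ≤ 6 := by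
    rw [← Set.image_univ]
    refine (Set.ncard_image_le Set.finite_univ).trans ?_
    rw [Set.ncard_univ, DirichletCharacter.card_eq_totient_of_hasEnoughRootsOfUnity ℂ 9]
    decide
  exact (Set.ncard_union_le _ _).trans (by omega)

/-- CNT: counting in the family. -/
theorem cnt (all : S_ALL) (loc : S_LOC) : S_CNT := by
  intro P Bad hBad
  refine ⟨family_finite P, ?_⟩
  classical
  set A : ℕ × ℕ → Ei := fun t =>
    al (-((Nat.sqrt P : ℤ) + 1) + t.1) (-((Nat.sqrt P : ℤ) + 1) + t.2) with hA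
  set F : Finset (ℕ × ℕ) := ((range (2 * (Nat.sqrt P + 1))) ×ˢ
    (range (2 * (Nat.sqrt P + 1)))).filter fun t : ℕ × ℕ =>
      ∃ (d : ℕ) (ψ : DirichletCharacter ℂ d), (d = 1 ∨ d = 9) ∧ Bad fun n =>
        xi (al (-((Nat.sqrt P : ℤ) + 1) + t.1) (-((Nat.sqrt P : ℤ) + 1) + t.2)) n *
          ψ (n : ZMod d) with hF
  have key : ∀ χ ∈ {χ ∈ family P | Bad fun n => χ.2 (n : ZMod χ.1)},
      ∃ t : (ℕ × ℕ) × (Σ d : ℕ, DirichletCharacter ℂ d), t.1 ∈ F ∧ t.2 ∈ psis ∧
        nr (A t.1) * (t.2.1 : ℤ) = χ.1 ∧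
        ∀ n : ℕ, 1 ≤ n → χ.2 (n : ZMod χ.1) = xi (A t.1) n * t.2.2 (n : ZMod t.2.1) := by
    rintro ⟨m, χ⟩ ⟨⟨h1, h2, h3, h4⟩, h5⟩
    obtain ⟨α, d, ψ, hα, hd, hm, hv⟩ := all m h1 χ h4 h3
    have hd0 : (1 : ℤ) ≤ d := by rcases hd with rfl | rfl <;> norm_num
    have hm1 : (1 : ℤ) ≤ m := by exact_mod_cast h1
    have hmP : (m : ℤ) ≤ P := by exact_mod_cast h2
    have hpos : 0 < nr α := by
      by_contra hc
      have : nr α * (d : ℤ) ≤ 0 := mul_nonpos_of_nonpos_of_nonneg (not_lt.mp hc) (by omega)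
      omega
    have hle : nr α ≤ P := by nlinarith
    obtain ⟨x, hx, y, hy, hxy⟩ := loc P α hα hle
    have hAx : A (x, y) = α := hxy.symm
    refine ⟨⟨(x, y), ⟨d, ψ⟩⟩, ?_, ?_, ?_, ?_⟩
    · rw [hF, Finset.mem_filter, Finset.mem_product]
      refine ⟨⟨hx, hy⟩, d, ψ, hd, ?_⟩
      refine (hBad _ _ ?_).mp h5
      intro n hn
      show χ (n : ZMod m) = xi (A (x, y)) n * ψ (n : ZMod d)
      rw [hAx]
      exact hv n hn
    · rcases hd with rfl | rfl
      · exact Or.inl ⟨ψ, rfl⟩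
      · exact Or.inr ⟨ψ, rfl⟩
    · show nr (A (x, y)) * (d : ℤ) = m
      rw [hAx]
      exact_mod_cast hm
    · intro n hn
      show χ (n : ZMod m) = xi (A (x, y)) n * ψ (n : ZMod d)
      rw [hAx]
      exact hv n hn
  choose! G hG1 hG2 hG3 hG4 using key
  have hinj : Set.InjOn G {χ ∈ family P | Bad fun n => χ.2 (n : ZMod χ.1)} := by
    rintro ⟨m, χ⟩ hχ ⟨m', χ'⟩ hχ' he
    have e1 := hG3 _ hχ
    have e2 := hG3 _ hχ'
    rw [← he, e1] at e2
    have hm : m = m' := by exact_mod_cast e2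
    subst hm
    have hm1 : 1 ≤ m := hχ.1.1
    have : χ = χ' := by
      refine char_ext hm1 fun n hn => ?_
      have e3 := hG4 _ hχ n hn
      have e4 := hG4 _ hχ' n hn
      rw [← he] at e4
      exact e3.trans e4.symm
    rw [this]
  have hcard : {χ ∈ family P | Bad fun n => χ.2 (n : ZMod χ.1)}.ncard ≤
      ((F : Set (ℕ × ℕ)) ×ˢ psis).ncard := by
    refine Set.ncard_le_ncard_of_injOn G (fun χ hχ => ?_) hinj
      (F.finite_toSet.prod psis_finite)
    exact ⟨Finset.mem_coe.mpr (hG1 χ hχ), hG2 χ hχ⟩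
  have hprod : ((F : Set (ℕ × ℕ)) ×ˢ psis).ncard = F.card * psis.ncard := by
    rw [Set.ncard_prod, Set.ncard_coe_finset]
  have hfin : {χ ∈ family P | Bad fun n => χ.2 (n : ZMod χ.1)}.ncard ≤ 7 * F.card := by
    rw [hprod] at hcard
    refine hcard.trans ?_
    rw [mul_comm]
    exact Nat.mul_le_mul_right _ psis_ncard
  exact_mod_cast hfin

end Pool.Agent.Q210.CC
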